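import Pool.Agent.Q299.TD.Core
import Pool.Agent.H176.DT.G1

/-!
# Uniformization: comparison of the two forms, transport, and composites
-/

set_option autoImplicit false

universe u

namespace Pool.Agent.Q299.TD

open IsLocalRing Pool.Agent.W418.LU2 Pool.Agent.TH188.QS Pool.Agent.H176.DT

section basic

variable {K : Type u} [Field K] {V : ValuationSubring K} {A : Subring K}

/-- From strong uniformization to general position. -/
theorem gp_of_su (h : SU V A) : GP V A := by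
  classical
  intro G H hG hH hG0 hH0
  obtain ⟨T, n, x, hSt, hmon⟩ := h (G ∪ (H \ {0})) (hG.union (hH.subset Set.diff_subset)) (by
    rintro g (hg | ⟨-, hg0⟩)
    · exact (hG0 g hg).1
    · exact hg0)
  obtain ⟨β, hβA, hβm, hβT, -⟩ := hSt.den
  have hβ0 : β ≠ 0 := by
    obtain ⟨w, hw0, -, -, δ, hβ⟩ := hβm
    rw [hβ]
    exact mul_ne_zero hw0 (mo_ne_zero hSt.reg.ne δ)
  refine ⟨Fin n, inferInstance, x, PP V A T, β, hSt.reg, ⟨hβA, hβ0, T, hSt.fin, fun t ht => ?_, rfl⟩,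
    hβm, fun h hh => (hmon h (Or.inl hh)).1, fun h hh => ?_⟩
  · refine ⟨hSt.reg.PA (le_lo _ _ (Subring.subset_closure (Or.inr ht))), ?_⟩
    rw [mul_comm]
    exact hβT t ht
  · by_cases h0 : h = 0
    · rw [h0]
      exact Subring.zero_mem _
    · exact (hmon h (Or.inr ⟨hh, h0⟩)).2 (hH0 h hh).1

/-- From general position to strong uniformization. -/
theorem su_of_gp [IsNoetherianRing A] (hM : Mod V A) (h : GP V A) : SU V A :=
  p_base V A hM (h.logUnif hM.1)

end basic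

/-- Transport of monomials. -/
lemma pmon_map {E K : Type u} [Field E] [Field K] (f : E →+* K) {P : Subring E} {ι : Type}
    [Fintype ι] {x : ι → E} {g : E} (h : PMon P x g) :
    PMon (P.map f) (fun i => f (x i)) (f g) := by
  obtain ⟨w, hw0, hw, hwi, δ, rfl⟩ := h
  refine ⟨f w, (map_ne_zero f).2 hw0, ⟨w, hw, rfl⟩, ⟨w⁻¹, hwi, map_inv₀ f w⟩, δ, ?_⟩
  rw [map_mul]
  congr 1
  simp only [mo, map_prod, map_zpow₀]

/-- Transport to larger fields. -/
theorem gp_map {E K : Type u} [Field E] [Field K] (f : E →+* K) (V : ValuationSubring K)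
    (A : Subring E) (h : GP (V.comap f) A) : GP V (A.map f) := by
  classical
  have hfr : ∀ z : K, Fr (A.map f) z → ∃ w : E, f w = z ∧ Fr A w := by
    rintro z ⟨_, ⟨a, ha, rfl⟩, _, ⟨b, hb, rfl⟩, hb0, rfl⟩
    refine ⟨a * b⁻¹, by rw [map_mul, map_inv₀], a, ha, b, hb, ?_, rfl⟩
    rintro rfl
    exact hb0 (map_zero f)
  intro G H hGf hHf hG hH
  obtain ⟨ι, _, x, P, g, hreg, ⟨hgA, hg0, T, hTf, hT, hP⟩, hgm, hGm, hHm⟩ := h (f ⁻¹' G) (f ⁻¹' H)
    (hGf.preimage f.injective.injOn) (hHf.preimage f.injective.injOn)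
    (fun z hz => by
      obtain ⟨h1, h2⟩ := hG _ hz
      obtain ⟨w, hw, hwA⟩ := hfr _ h2
      rw [← f.injective hw]
      refine ⟨?_, hwA⟩
      rintro rfl
      rw [map_zero] at hw
      exact h1 hw.symm)
    (fun z hz => by
      obtain ⟨h1, h2⟩ := hH _ hz
      obtain ⟨w, hw, hwA⟩ := hfr _ h2
      rw [← f.injective hw]
      refine ⟨?_, hwA⟩
      change f w ∈ V
      rw [hw]
      exact h1)
  subst hP
  have hAA : ∀ e, f e ∈ V.toSubring ↔ e ∈ (V.comap f).toSubring := fun e => Iff.rfl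
  have hcl : (Subring.closure ((A : Set E) ∪ T)).map f =
      Subring.closure (((A.map f : Subring K) : Set K) ∪ f '' T) := by
    rw [RingHom.map_closure, Set.image_union]
    rfl
  have hlo := lo_map f hAA (Subring.closure ((A : Set E) ∪ T))
  refine ⟨ι, inferInstance, fun i => f (x i), lo V.toSubring ((Subring.closure ((A : Set E) ∪ T)).map
    f), f g, RegP.map f hAA hreg, ⟨⟨g, hgA, rfl⟩, (map_ne_zero f).2 hg0, f '' T, hTf.image _, ?_,
      by rw [hcl]⟩, ?_, ?_, ?_⟩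
  · rintro _ ⟨t, ht, rfl⟩
    exact ⟨(hT t ht).1, t * g, (hT t ht).2, map_mul f t g⟩
  · rw [hlo]
    exact pmon_map f hgm
  · intro z hz
    obtain ⟨w, hw, -⟩ := hfr z (hG z hz).2
    rw [hlo, ← hw]
    exact pmon_map f (hGm w (by rw [Set.mem_preimage, hw]; exact hz))
  · intro z hz
    obtain ⟨w, hw, -⟩ := hfr z (hH z hz).2
    rw [hlo, ← hw]
    exact ⟨w, hHm w (by rw [Set.mem_preimage, hw]; exact hz), rfl⟩

/-- Fields of finite type are fraction fields of models. -/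
theorem exists_model {R : Type u} [CommRing R] {E : Type u} [Field E] (ρ : R →+* E)
    {U : Set E} (hU : U.Finite) (hE : ∀ z : E, z ∈ Subfield.closure ((ρ.range : Set E) ∪ U))
    (V : ValuationSubring E) (hρ : ∀ a, ρ a ∈ V) :
    ∃ U' : Set E, U'.Finite ∧ Mod V (Subring.closure ((ρ.range : Set E) ∪ U')) := by
  classical
  refine ⟨{z | z ∈ U ∧ z ∈ V} ∪ (fun z => z⁻¹) '' {z | z ∈ U ∧ z ∉ V},
    (hU.subset fun z hz => hz.1).union ((hU.subset fun z hz => hz.1).image _), ?_, ?_⟩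
  · rw [Subring.closure_le]
    rintro z (⟨a, rfl⟩ | ⟨-, hz⟩ | ⟨w, ⟨-, hw⟩, rfl⟩)
    · exact hρ a
    · exact hz
    · exact (V.mem_or_inv_mem w).resolve_left hw
  · set B := Subring.closure ((ρ.range : Set E) ∪ ({z | z ∈ U ∧ z ∈ V} ∪
      (fun z => z⁻¹) '' {z | z ∈ U ∧ z ∉ V})) with hB
    intro z
    have h1 : z ∈ Subfield.closure (B : Set E) := by
      have h2 : Subfield.closure ((ρ.range : Set E) ∪ U) ≤ Subfield.closure (B : Set E) := by
        rw [Subfield.closure_le]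
        rintro w (⟨a, rfl⟩ | hw)
        · exact Subfield.subset_closure (Subring.subset_closure (Or.inl ⟨a, rfl⟩))
        · by_cases hwV : w ∈ V
          · exact Subfield.subset_closure (Subring.subset_closure (Or.inr (Or.inl ⟨hw, hwV⟩)))
          · have h3 : w⁻¹ ∈ Subfield.closure (B : Set E) :=
              Subfield.subset_closure (Subring.subset_closure (Or.inr (Or.inr ⟨w, ⟨hw, hwV⟩, rfl⟩)))
            have h4 := (Subfield.closure (B : Set E)).inv_mem h3
            rwa [inv_inv] at h4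
      exact h2 (hE z)
    obtain ⟨a, ha, b, hb, h⟩ := Subfield.mem_closure_iff.1 h1
    rw [Subring.closure_eq] at ha hb
    by_cases hb0 : b = 0
    · refine ⟨0, B.zero_mem, 1, B.one_mem, one_ne_zero, ?_⟩
      rw [← h, hb0, div_zero, zero_mul]
    · exact ⟨a, ha, b, hb, hb0, by rw [← h, div_eq_mul_inv]⟩

/-- General position for all subrings of finite type with the given fraction field. -/
def AllGP {R : Type u} [CommRing R] {K : Type u} [Field K] (ρ : R →+* K) (V : ValuationSubring K) :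
    Prop :=
  ∀ T : Set K, T.Finite → Mod V (Subring.closure ((ρ.range : Set K) ∪ T)) →
    GP V (Subring.closure ((ρ.range : Set K) ∪ T))

/-- Composites. -/
theorem allGP_comp {R : Type u} [CommRing R] (hR : HJ R) {K : Type u} [Field K] (ρ : R →+* K)
    (V V₁ : ValuationSubring K) (W : ValuationSubring (ResidueField V₁))
    (hρ : ∀ a, ρ a ∈ V₁.toSubring)
    (hVW : ∀ z : K, z ∈ V ↔ ∃ hz : z ∈ V₁, residue V₁ ⟨z, hz⟩ ∈ W)
    (h₁ : AllGP ρ V₁)
    (h₂ : ∀ (F : Type u) [Field F] (j : F →+* ResidueField V₁) (σ : R →+* F),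
      j.comp σ = (residue V₁).comp (ρ.codRestrict V₁.toSubring hρ) →
      (∃ U : Set F, U.Finite ∧ ∀ z : F, z ∈ Subfield.closure ((σ.range : Set F) ∪ U)) →
      AllGP σ (W.comap j)) : AllGP ρ V := by
  classical
  intro T hT hM
  set A := Subring.closure ((ρ.range : Set K) ∪ T) with hA
  have hAV := hM.1
  have hVV : V ≤ V₁ := fun z hz => ((hVW z).1 hz).1
  have hAV₁ : A ≤ V₁.toSubring := fun a ha => hVV (hAV ha)
  have hnoe : IsNoetherianRing A := noe hR ρ hT
  refine gp_comp hVW hAV (h₁ T hT ⟨hAV₁, hM.2⟩) fun T' hT' hT'V => ?_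
  let ρ' : R →+* ResidueField V₁ := (residue V₁).comp (ρ.codRestrict V₁.toSubring hρ)
  have hρ' : ∀ x, Pr (residue V₁) (ρ x) (ρ' x) := fun x => res_pr (hρ x)
  have hTV₁ : ∀ t ∈ T ∪ T', t ∈ V₁ := by
    rintro t (ht | ht)
    · exact hAV₁ (Subring.subset_closure (Or.inr ht))
    · exact hVV (hT'V t ht)
  let T₂ : Set (ResidueField V₁) := {w | ∃ t ∈ T ∪ T', Pr (residue V₁) t w}
  have hT₂f : T₂.Finite := by
    have h1 : T₂ ⊆ (fun t : K => if ht : t ∈ V₁ then residue V₁ ⟨t, ht⟩ else 0) ''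
        (T ∪ T') := by
      rintro w ⟨t, ht, htw⟩
      refine ⟨t, ht, ?_⟩
      simp only [dif_pos (hTV₁ t ht)]
      exact (res_pr (hTV₁ t ht)).unique htw
    exact ((hT.union hT').image _).subset h1
  have him : im (residue V₁) (Subring.closure ((A : Set K) ∪ T')) =
      Subring.closure ((ρ'.range : Set (ResidueField V₁)) ∪ T₂) := by
    rw [hA, closure_closure_union, Set.union_assoc]
    refine im_closure ?_ ?_
    · rintro u (⟨x, rfl⟩ | hu)
      · exact ⟨ρ' x, Or.inl ⟨x, rfl⟩, hρ' x⟩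
      · exact ⟨_, Or.inr ⟨u, hu, res_pr (hTV₁ u hu)⟩, res_pr (hTV₁ u hu)⟩
    · rintro w (⟨x, rfl⟩ | ⟨t, ht, h⟩)
      · exact ⟨ρ x, Or.inl ⟨x, rfl⟩, hρ' x⟩
      · exact ⟨t, Or.inr ht, h⟩
  have hBW : Subring.closure ((ρ'.range : Set (ResidueField V₁)) ∪ T₂) ≤ W.toSubring := by
    rw [← him]
    rintro w ⟨z, hz, hzw⟩
    have hzV : z ∈ V := cl_le hAV hT'V hz
    obtain ⟨h1, h2⟩ := (hVW z).1 hzV
    rw [hzw.unique (res_pr h1)]
    exact h2
  rw [him]
  let F : Subfield (ResidueField V₁) :=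
    Subfield.closure ((ρ'.range : Set (ResidueField V₁)) ∪ T₂)
  have hρF : ∀ x, ρ' x ∈ F := fun x => Subfield.subset_closure (Or.inl ⟨x, rfl⟩)
  let σ : R →+* F := ρ'.codRestrict F hρF
  have hσ : F.subtype.comp σ = ρ' := by
    ext x
    rfl
  let T₃ : Set F := {w | (w : ResidueField V₁) ∈ T₂}
  have hT₃f : T₃.Finite := hT₂f.preimage (Subtype.val_injective.injOn)
  have himg : F.subtype '' ((σ.range : Set F) ∪ T₃) = (ρ'.range : Set (ResidueField V₁)) ∪ T₂ := by
    ext w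
    constructor
    · rintro ⟨w, ⟨x, rfl⟩ | hw, rfl⟩
      · exact Or.inl ⟨x, rfl⟩
      · exact Or.inr hw
    · rintro (⟨x, rfl⟩ | hw)
      · exact ⟨σ x, Or.inl ⟨x, rfl⟩, rfl⟩
      · exact ⟨⟨w, Subfield.subset_closure (Or.inr hw)⟩, Or.inr hw, rfl⟩
  have hmap : (Subring.closure ((σ.range : Set F) ∪ T₃)).map F.subtype =
      Subring.closure ((ρ'.range : Set (ResidueField V₁)) ∪ T₂) := by
    rw [RingHom.map_closure, himg]
  have hgenF : ∀ z : F, z ∈ Subfield.closure ((σ.range : Set F) ∪ T₃) := by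
    intro z
    have h1 : (z : ResidueField V₁) ∈ (Subfield.closure ((σ.range : Set F) ∪ T₃)).map F.subtype := by
      rw [RingHom.map_field_closure, himg]
      exact z.2
    obtain ⟨w, hw, h⟩ := h1
    rwa [← Subtype.ext (h : (w : ResidueField V₁) = z)]
  have hFG : ∃ U : Set F, U.Finite ∧ ∀ z : F, z ∈ Subfield.closure ((σ.range : Set F) ∪ U) :=
    ⟨T₃, hT₃f, hgenF⟩
  have hle : Subring.closure ((σ.range : Set F) ∪ T₃) ≤ (W.comap F.subtype).toSubring := by
    intro z hz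
    have h1 : (z : ResidueField V₁) ∈ Subring.closure ((ρ'.range : Set (ResidueField V₁)) ∪ T₂) := by
      rw [← hmap]
      exact ⟨z, hz, rfl⟩
    exact hBW h1
  have hfr : ∀ z : F, ∃ a ∈ Subring.closure ((σ.range : Set F) ∪ T₃),
      ∃ b ∈ Subring.closure ((σ.range : Set F) ∪ T₃), b ≠ 0 ∧ z = a * b⁻¹ := by
    intro z
    obtain ⟨a, ha, b, hb, h⟩ := Subfield.mem_closure_iff.1 (hgenF z)
    by_cases hb0 : b = 0
    · refine ⟨0, Subring.zero_mem _, 1, Subring.one_mem _, one_ne_zero, ?_⟩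
      rw [← h, hb0, div_zero, zero_mul]
    · exact ⟨a, ha, b, hb, hb0, by rw [← h, div_eq_mul_inv]⟩
  have h3 := gp_map F.subtype W _ (h₂ F F.subtype σ hσ hFG T₃ hT₃f ⟨hle, hfr⟩)
  rwa [hmap] at h3

end Pool.Agent.Q299.TD
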