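import Pool.Agent.Results.MP_5b7a2c_ag.KeyPolynomialTowers
import Pool.Agent.Results.MP_5b7a2c_ag.DiscreteValuations
import Pool.Agent.Q299.TD.Cls

/-!
# A class of valuations which is closed under composition and under towers without defect
-/

set_option autoImplicit false

universe u

namespace Pool.Agent.Q299.TD

open IsLocalRing Pool.Agent.W418.LU2 Pool.Agent.TH188.QS
open Pool.Agent.Results.MP_5b7a2c_ag.KeyPolynomialTowers (Tower IsKey IsDefectless
  IsLogUniformizable)
open Pool.Agent.Results.MP_5b7a2c_ag.DiscreteValuations (adjoined IsDivergent IsComposite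
  IsStepwiseDivergent)

/-- `A` is a subring of the valuation ring `V` with fraction field `K`. -/
def IsModel {K : Type u} [Field K] (V : ValuationSubring K) (A : Subring K) : Prop :=
  A ≤ V.toSubring ∧ ∀ z : K, ∃ a ∈ A, ∃ b ∈ A, b ≠ 0 ∧ z = a * b⁻¹

/-- The field `K` is finitely generated over the image of `R`. -/
def IsFinitelyGenerated {R K : Type u} [CommRing R] [Field K] (ρ : R →+* K) : Prop :=
  ∃ U : Set K, U.Finite ∧ ∀ z : K, z ∈ Subfield.closure ((ρ.range : Set K) ∪ U)

/-- The smallest class of valuation rings `V` of fields `K` over `R` which contains the trivial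
valuations, the discrete valuations of arbitrary finite rank (more generally, the composites of `n`
valuations each of which is discrete of rank one or divergent on all `R`-algebras of finite type),
the divergent valuations (the sequence of quadratic transforms of every `R`-algebra of finite type
in `V` with fraction field `K` is divergent) and the valuations which are log uniformizable on all
`R`-algebras of finite type with fraction field `K` (for example, by Cossart and Piltant, if these
are quasi-excellent rings of dimension at most `3`), and which is closed under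

* composition: `V` is the composite of `V₁` and a valuation ring `W` of the residue field of `V₁`,
  the class contains `V₁` and `W ∩ F` for every field `F` in this residue field which is finitely
  generated over `R`;
* towers without defect: `K` is reached from a subfield `E`, finitely generated over `R`, by
  finitely many steps of the following kinds, and the class contains `V ∩ E`: transcendental
  steps `L ⊂ L(t)` without limit key polynomials, and finite extensions without defect. -/
inductive IsReached (R : Type u) [CommRing R] :
    ∀ {K : Type u} [Field K], (R →+* K) → ValuationSubring K → Prop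
  /-- The composites of `n` discrete or divergent valuations (for example, the discrete valuations
  of rank `n`, or the trivial valuations if `n = 0`). -/
  | stepwise {K : Type u} [Field K] (n : ℕ) (ρ : R →+* K) (V : ValuationSubring K) :
    IsStepwiseDivergent R n ρ V → IsReached R ρ V
  /-- The divergent valuations. -/
  | divergent {K : Type u} [Field K] (ρ : R →+* K) (V : ValuationSubring K) :
    (∀ T : Set K, T.Finite → IsModel V (adjoined ρ T) → IsDivergent V (adjoined ρ T)) →
    IsReached R ρ V
  /-- The valuations which are known to be log uniformizable. -/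
  | uniformizable {K : Type u} [Field K] (ρ : R →+* K) (V : ValuationSubring K) :
    (∀ T : Set K, T.Finite → IsModel V (adjoined ρ T) → IsLogUniformizable V (adjoined ρ T)) →
    IsReached R ρ V
  /-- The composites of two valuations. -/
  | composite {K : Type u} [Field K] (ρ : R →+* K) (V V₁ : ValuationSubring K)
    (W : ValuationSubring (ResidueField V₁)) (hρ : ∀ a, ρ a ∈ V₁.toSubring) :
    IsComposite V V₁ W → IsReached R ρ V₁ →
    (∀ (F : Type u) [Field F] (j : F →+* ResidueField V₁) (σ : R →+* F),
      j.comp σ = (residue V₁).comp (ρ.codRestrict V₁.toSubring hρ) → IsFinitelyGenerated σ →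
      IsReached R σ (W.comap j)) → IsReached R ρ V
  /-- The towers without defect. -/
  | tower {E K : Type u} [Field E] [Field K] [Algebra E K] (ρ : R →+* E)
    (V : ValuationSubring K) : IsFinitelyGenerated ρ →
    IsReached R ρ (V.comap (algebraMap E K)) → Tower E V ⊤ →
    IsReached R ((algebraMap E K).comp ρ) V

/-- The invariant of a tower. -/
lemma tower_inv {E K : Type u} [Field E] [Field K] [Algebra E K] (V : ValuationSubring K)
    (O : Subring E) [IsNoetherianRing O] (hM : Pool.Agent.H176.DT.Mod (V.comap (algebraMap E K)) O)
    (hLU : LogUnif (V.comap (algebraMap E K)) O) (hK : Tower E V ⊤) :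
    Pool.Agent.H176.DT.Inv V (O.map (algebraMap E K)) (⊤ : Subfield K).subtype := by
  have kp : ∀ {L : Subfield K} {θ : K} {ϕ : Polynomial L}, IsKey V θ ϕ → IsDefectless V θ ϕ →
      ∃ (n : ℕ) (β : Fin n → Polynomial L), Pool.Agent.H176.DT.KP V θ ϕ β := by
    rintro L θ ϕ ⟨h1, h2, h3⟩ ⟨n, β, h4, h5, h6⟩
    exact ⟨n, β, h1, h2, fun i => (h4 i).1, fun i => (h4 i).2, h5, h6, h3⟩
  have key : ∀ L : Subfield K, Tower E V L →
      Pool.Agent.H176.DT.Inv V (O.map (algebraMap E K)) L.subtype := by
    intro L hL
    induction hL with
    | base => exact Pool.Agent.H176.DT.sub_base V O hM hLU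
    | transcendental L t _ ht hdom ih =>
      refine Pool.Agent.H176.DT.sub_trans V _ t ht (fun f => ?_) ih
      obtain ⟨ϕ, h1, h2, N, d, h3, h4, h5⟩ := hdom f
      obtain ⟨n, β, h6⟩ := kp h1 h2
      exact ⟨ϕ, n, β, h6, N, d, ⟨h3, h4⟩, h5⟩
    | finite L L' _ hnd ih => exact Pool.Agent.H176.DT.sub_nd V _ hnd.1 hnd.2 ih
  exact key ⊤ hK

/-- The step of a tower. -/
lemma tower_gp {R : Type u} [CommRing R] (hR : HJ R) {E K : Type u} [Field E] [Field K]
    [Algebra E K] (ρ : R →+* E) (V : ValuationSubring K) (hE : IsFinitelyGenerated ρ)
    (h : AllGP ρ (V.comap (algebraMap E K))) (hK : Tower E V ⊤) :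
    AllGP ((algebraMap E K).comp ρ) V := by
  intro T hT hM
  obtain ⟨U, hU, hUE⟩ := hE
  have hρV : ∀ a, ρ a ∈ V.comap (algebraMap E K) := fun a =>
    hM.1 (Subring.subset_closure (Or.inl ⟨a, rfl⟩))
  obtain ⟨U', hU', hMU⟩ := exists_model ρ hU hUE (V.comap (algebraMap E K)) hρV
  have hN : IsNoetherianRing (Subring.closure ((ρ.range : Set E) ∪ U')) := noe hR ρ hU'
  have h1 := tower_inv V (Subring.closure ((ρ.range : Set E) ∪ U')) hMU
    ((h U' hU' hMU).logUnif hMU.1) hK
  exact gp_of_su (finalSU ρ hU' V (fun a ha => hMU.1 ha) h1 hT hM.1 hM.2)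

/-- The valuations in the class are in general position on all models. -/
theorem allGP_of_isReached {R : Type u} [CommRing R] (hR : HJ R) {K : Type u} [Field K]
    (ρ : R →+* K) (V : ValuationSubring K) (h : IsReached R ρ V) : AllGP ρ V := by
  induction h with
  | stepwise n ρ V hV =>
    intro T hT hM
    exact gp_sd hR n V ρ hV.sd T hT hM.1
  | divergent ρ V hV =>
    intro T hT hM
    exact (gp_div hR ρ hT hM.1 (hV T hT hM).dv).1
  | uniformizable ρ V hV =>
    intro T hT hM
    have hN := noe hR ρ hT
    exact gp_of_su (Pool.Agent.H176.DT.p_base V _ hM (hV T hT hM))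
  | composite ρ V V₁ W hρ hc _ _ ih₁ ih₂ =>
    exact allGP_comp hR ρ V V₁ W hρ hc ih₁ fun F _ j σ hj hF => ih₂ F j σ hj hF
  | tower ρ V hE _ hK ih => exact tower_gp hR ρ V hE ih hK

/-- The valuations in the class are log uniformizable on all models. -/
theorem logUnif_of_isReached {R : Type u} [CommRing R] (hR : HJ R) {K : Type u} [Field K]
    (ρ : R →+* K) (V : ValuationSubring K) (h : IsReached R ρ V) (T : Set K) (hT : T.Finite)
    (hM : IsModel V (adjoined ρ T)) : LogUnif V (adjoined ρ T) := by
  have hN : IsNoetherianRing (adjoined ρ T) := noe hR ρ hT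
  exact (allGP_of_isReached hR ρ V h T hT hM).logUnif hM.1

end Pool.Agent.Q299.TD
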