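import Pool.Agent.H176.DT.G4
import Pool.Agent.H176.DT.H8
import Pool.Agent.TH188.QS.Cls
import Pool.Agent.TH188.QS.Bases3

/-!
# Log uniformization of towers without defect over composites of discrete or divergent valuations
-/

set_option autoImplicit false

universe u

namespace Pool.Agent.Q299.TD

open Pool.Agent.W418.LU2 Pool.Agent.TH188.QS Pool.Agent.H176.DT

/-- Rings of finite type over good base rings are noetherian. -/
theorem noe {R : Type u} [CommRing R] (hR : HJ R) {K : Type u} [Field K] (ρ : R →+* K)
    {T : Set K} (hT : T.Finite) : IsNoetherianRing (Subring.closure ((ρ.range : Set K) ∪ T)) :=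
  (main_sd hR ρ (V := ⊤) hT (B := Subring.closure ((ρ.range : Set K) ∪ T)) (fun _ _ => trivial)
    le_rfl (fun b hb => ⟨b, hb, 1, Subring.one_mem _, one_ne_zero, by
      rw [inv_one]; exact Subring.one_mem _, by rw [inv_one, mul_one]⟩) (Or.inl ⟨0, rfl⟩)).2

/-- Rings of finite type over noetherian rings are noetherian. -/
theorem noe_of_noe {R : Type u} [CommRing R] [IsNoetherianRing R] {K : Type u} [Field K]
    (ρ : R →+* K) {T : Set K} (hT : T.Finite) :
    IsNoetherianRing (Subring.closure ((ρ.range : Set K) ∪ T)) := by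
  obtain ⟨n, t, rfl⟩ := exists_fin_range hT
  rw [← range_eval ρ t]
  exact isNoetherianRing_of_surjective _ _ (MvPolynomial.eval₂Hom ρ t).rangeRestrict
    (MvPolynomial.eval₂Hom ρ t).rangeRestrict_surjective

/-- The uniformization of the base. -/
theorem base {R : Type u} [CommRing R] (hR : HJ R) {E : Type u} [Field E] (ρ : R →+* E)
    {U : Set E} (hU : U.Finite) {W : ValuationSubring E}
    (hUW : Subring.closure ((ρ.range : Set E) ∪ U) ≤ W.toSubring)
    (hW : (∃ n, SD R n ρ W) ∨ Dv W (qseq W (Subring.closure ((ρ.range : Set E) ∪ U)))) :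
    LogUnif W (Subring.closure ((ρ.range : Set E) ∪ U)) := by
  have := noe hR ρ hU
  exact (main_sd hR ρ hU (B := Subring.closure ((ρ.range : Set E) ∪ U)) hUW
    le_rfl (fun b hb => ⟨b, hb, 1, Subring.one_mem _, one_ne_zero, by
      rw [inv_one]; exact Subring.one_mem _, by rw [inv_one, mul_one]⟩) hW).1.logUnif hUW

/-- The step from the invariant of the tower to all models. -/
theorem finalSU {R : Type u} [CommRing R] {E K : Type u} [Field E] [Field K]
    [Algebra E K] (ρ : R →+* E) {U : Set E} (hU : U.Finite) (V : ValuationSubring K)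
    (hUV : ∀ a ∈ Subring.closure ((ρ.range : Set E) ∪ U), algebraMap E K a ∈ V)
    (h : Inv V ((Subring.closure ((ρ.range : Set E) ∪ U)).map (algebraMap E K))
      (⊤ : Subfield K).subtype)
    {G : Set K} (hG : G.Finite)
    (hAV : Subring.closure (((((algebraMap E K).comp ρ).range : Subring K) : Set K) ∪ G) ≤
      V.toSubring)
    (hAK : ∀ z : K, ∃ a ∈ Subring.closure (((((algebraMap E K).comp ρ).range : Subring K) :
      Set K) ∪ G), ∃ b ∈ Subring.closure (((((algebraMap E K).comp ρ).range : Subring K) :
      Set K) ∪ G), b ≠ 0 ∧ z = a * b⁻¹) :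
    SU V (Subring.closure (((((algebraMap E K).comp ρ).range : Subring K) : Set K) ∪ G)) := by
  have hmap : (ρ.range.map (algebraMap E K) : Subring K) = ((algebraMap E K).comp ρ).range := by
    rw [RingHom.map_range]
  exact inv_SU2 V ρ.range (Subring.closure ((ρ.range : Set E) ∪ U)) U hU rfl hUV h
    (Subring.closure (((((algebraMap E K).comp ρ).range : Subring K) : Set K) ∪ G)) G hG
    (by rw [hmap]) ⟨hAV, hAK⟩

/-- The step from the invariant of the tower to all models. -/
theorem final {R : Type u} [CommRing R] (hR : HJ R) {E K : Type u} [Field E] [Field K]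
    [Algebra E K] (ρ : R →+* E) {U : Set E} (hU : U.Finite) (V : ValuationSubring K)
    (hUV : ∀ a ∈ Subring.closure ((ρ.range : Set E) ∪ U), algebraMap E K a ∈ V)
    (h : Inv V ((Subring.closure ((ρ.range : Set E) ∪ U)).map (algebraMap E K))
      (⊤ : Subfield K).subtype)
    {G : Set K} (hG : G.Finite)
    (hAV : Subring.closure (((((algebraMap E K).comp ρ).range : Subring K) : Set K) ∪ G) ≤
      V.toSubring)
    (hAK : ∀ z : K, ∃ a ∈ Subring.closure (((((algebraMap E K).comp ρ).range : Subring K) :
      Set K) ∪ G), ∃ b ∈ Subring.closure (((((algebraMap E K).comp ρ).range : Subring K) :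
      Set K) ∪ G), b ≠ 0 ∧ z = a * b⁻¹) :
    LogUnif V (Subring.closure (((((algebraMap E K).comp ρ).range : Subring K) : Set K) ∪ G)) := by
  have hN := noe hR ((algebraMap E K).comp ρ) hG
  exact p_fin V _ hAV (finalSU ρ hU V hUV h hG hAV hAK)

end Pool.Agent.Q299.TD
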